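import Mathlib

/-!
# MP_ea0d02_nt: positive definite lattices over totally real fields, minimal ranks of
n-universal lattices, decomposition into indecomposable vectors (Eichler, Kneser)
-/

open NumberField TensorProduct

namespace Pool.Agent.Lib_helper76.UL

set_option linter.unusedSectionVars false

variable (K : Type) [Field K] [NumberField K]

/-- A positive definite `𝓞 K`-lattice: a finitely generated `𝓞 K`-module `L` with a symmetric
bilinear form `B : L × L → 𝓞 K` such that `B v v` is totally positive for every `v ≠ 0`. -/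
structure IsLattice (L : Type) [AddCommGroup L] [Module (𝓞 K) L]
    (B : LinearMap.BilinForm (𝓞 K) L) : Prop where
  fin : Module.Finite (𝓞 K) L
  symm : ∀ x y, B x y = B y x
  pos : ∀ x, x ≠ 0 → ∀ φ : K →+* ℝ, 0 < φ (B x x : 𝓞 K)

/-- The rank of a lattice: the dimension of `K ⊗ L` over `K`. -/
noncomputable def rk (L : Type) [AddCommGroup L] [Module (𝓞 K) L] : ℕ :=
  Module.finrank K (K ⊗[𝓞 K] L)

/-- `(M, BM)` is represented by `(L, BL)`: a linear map preserving the quadratic form. -/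
def Represents {L M : Type} [AddCommGroup L] [Module (𝓞 K) L] [AddCommGroup M]
    [Module (𝓞 K) M] (BL : LinearMap.BilinForm (𝓞 K) L)
    (BM : LinearMap.BilinForm (𝓞 K) M) : Prop :=
  ∃ σ : M →ₗ[𝓞 K] L, ∀ x, BL (σ x) (σ x) = BM x x

/-- `(L, B)` is `n`-universal: it represents every positive definite lattice of rank `n`. -/
def Universal (n : ℕ) {L : Type} [AddCommGroup L] [Module (𝓞 K) L]
    (B : LinearMap.BilinForm (𝓞 K) L) : Prop :=
  ∀ (M : Type) [AddCommGroup M] [Module (𝓞 K) M] (BM : LinearMap.BilinForm (𝓞 K) M),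
    IsLattice K M BM → rk K M = n → Represents K B BM

/-- `U_K(n)`: the minimal rank of an `n`-universal positive definite lattice (`⊤` if there is
none, which does not happen for totally real `K`). -/
noncomputable def U (n : ℕ) : ℕ∞ :=
  sInf {r : ℕ∞ | ∃ (L : Type) (_ : AddCommGroup L) (_ : Module (𝓞 K) L)
    (B : LinearMap.BilinForm (𝓞 K) L), IsLattice K L B ∧ Universal K n B ∧ r = rk K L}

/-- The orthogonal complement of a vector. -/
def perp {L : Type} [AddCommGroup L] [Module (𝓞 K) L]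
    (B : LinearMap.BilinForm (𝓞 K) L) (v : L) : Submodule (𝓞 K) L :=
  LinearMap.ker (B v)

/-- The form on a submodule. -/
def res {L : Type} [AddCommGroup L] [Module (𝓞 K) L]
    (B : LinearMap.BilinForm (𝓞 K) L) (P : Submodule (𝓞 K) L) : LinearMap.BilinForm (𝓞 K) P :=
  B.restrict P

/-- form on `𝓞 K × M`: `<1> ⊥ M`. -/
noncomputable def add1 {M : Type} [AddCommGroup M] [Module (𝓞 K) M]
    (BM : LinearMap.BilinForm (𝓞 K) M) : LinearMap.BilinForm (𝓞 K) (𝓞 K × M) :=
  LinearMap.mk₂ (𝓞 K) (fun p q => p.1 * q.1 + BM p.2 q.2)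
    (by intro a b c; simp [add_mul]; ring)
    (by intro a b c; simp [mul_add, mul_assoc])
    (by intro a b c; simp [mul_add]; ring)
    (by intro a b c; simp [mul_add]; ring)

theorem add1_apply {M : Type} [AddCommGroup M] [Module (𝓞 K) M]
    (BM : LinearMap.BilinForm (𝓞 K) M) (p q : 𝓞 K × M) :
    add1 K BM p q = p.1 * q.1 + BM p.2 q.2 := rfl

theorem add1_lattice {M : Type} [AddCommGroup M] [Module (𝓞 K) M]
    (BM : LinearMap.BilinForm (𝓞 K) M) (h : IsLattice K M BM) :
    IsLattice K (𝓞 K × M) (add1 K BM) := by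
  have := h.fin
  refine ⟨inferInstance, ?_, ?_⟩
  · intro x y
    rw [add1_apply, add1_apply, h.symm x.2 y.2, mul_comm]
  · intro x hx φ
    rw [add1_apply]
    have h1 : φ ((x.1 * x.1 + BM x.2 x.2 : 𝓞 K) : K)
        = φ (x.1 : K) ^ 2 + φ ((BM x.2 x.2 : 𝓞 K) : K) := by
      push_cast
      rw [map_add, map_mul]; ring
    rw [h1]
    by_cases h2 : x.2 = 0
    · have h3 : x.1 ≠ 0 := fun h3 => hx (Prod.ext h3 h2)
      have h4 : (x.1 : K) ≠ 0 := by
        intro h; apply h3; exact_mod_cast h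
      have h5 : φ (x.1 : K) ≠ 0 := by
        rwa [Ne, map_eq_zero]
      have : φ ((BM x.2 x.2 : 𝓞 K) : K) = 0 := by
        rw [h2]; simp
      rw [this, add_zero]
      positivity
    · have := h.pos x.2 h2 φ
      positivity

theorem rk_prod {M : Type} [AddCommGroup M] [Module (𝓞 K) M] [Module.Finite (𝓞 K) M] :
    rk K (𝓞 K × M) = rk K M + 1 := by
  unfold rk
  rw [(TensorProduct.prodRight (𝓞 K) K K (𝓞 K) M).finrank_eq, Module.finrank_prod,
    (TensorProduct.AlgebraTensorModule.rid (𝓞 K) K K).finrank_eq, Module.finrank_self, add_comm]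

theorem rk_congr {M N : Type} [AddCommGroup M] [Module (𝓞 K) M] [AddCommGroup N]
    [Module (𝓞 K) N] (e : M ≃ₗ[𝓞 K] N) : rk K M = rk K N := by
  unfold rk
  exact (e.baseChange (𝓞 K) K M N).finrank_eq

section lat
variable {K} {L : Type} [AddCommGroup L] [Module (𝓞 K) L] {B : LinearMap.BilinForm (𝓞 K) L}

/-- an integer of a totally real field all of whose conjugates have absolute value `< 1` is `0` -/
theorem eq_zero_of_small [IsTotallyReal K] (b : 𝓞 K)
    (h : ∀ φ : K →+* ℝ, φ (b : K) ^ 2 < 1) : b = 0 := by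
  by_contra hb
  obtain ⟨w⟩ : Nonempty (InfinitePlace K) := inferInstance
  have key : ∀ z : InfinitePlace K, z (b : K) < 1 := by
    intro z
    have hz : z.IsReal := IsTotallyReal.isReal z
    have h1 := h (InfinitePlace.embedding_of_isReal hz)
    have h2 : z (b : K) = |InfinitePlace.embedding_of_isReal hz (b : K)| := by
      have := InfinitePlace.norm_embedding_of_isReal hz (b : K)
      rw [← this, Real.norm_eq_abs]
    rw [h2]
    exact (sq_lt_one_iff_abs_lt_one _).mp h1
  exact absurd (key w) (not_lt.mpr (InfinitePlace.one_le_of_lt_one hb (fun z _ => key z)))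

/-- reflection in `v - w` for orthogonal unit vectors -/
noncomputable def swap (B : LinearMap.BilinForm (𝓞 K) L) (v w : L) : L →ₗ[𝓞 K] L :=
  LinearMap.id - (B.flip (v - w)).smulRight (v - w)

theorem swap_apply (v w x : L) : swap B v w x = x - B x (v - w) • (v - w) := by
  simp [swap]

theorem exists_isometry [IsTotallyReal K] (hB : IsLattice K L B) (v w : L) (hv : B v v = 1)
    (hw : B w w = 1) : ∃ g : L →ₗ[𝓞 K] L, (∀ x, B (g x) (g x) = B x x) ∧ g w = v := by
  by_cases h0 : w - B v w • v = 0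
  · have h1 : w = B v w • v := sub_eq_zero.mp h0
    have h2 : B v w * B v w = 1 := by
      have : B w w = B v w * (B v w * B v v) := by
        conv_lhs => rw [h1]
        simp
      rw [hw, hv, mul_one] at this
      exact this.symm
    refine ⟨B v w • LinearMap.id, ?_, ?_⟩
    · intro x
      simp [← mul_assoc, h2]
    · simp only [LinearMap.smul_apply, LinearMap.id_apply]
      conv_lhs => rw [h1]
      simp only [map_smul, smul_eq_mul, hv, mul_one, smul_smul, h2, one_smul]
  · have hb : B v w = 0 := by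
      apply eq_zero_of_small
      intro φ
      have h1 := hB.pos _ h0 φ
      have h2 : B (w - B v w • v) (w - B v w • v) = 1 - B v w ^ 2 := by
        simp only [map_sub, map_smul, LinearMap.sub_apply, LinearMap.smul_apply, smul_eq_mul, hw,
          hv, hB.symm w v]
        ring
      rw [h2] at h1
      have h3 : φ ((1 - B v w ^ 2 : 𝓞 K) : K) = 1 - φ (B v w : K) ^ 2 := by
        push_cast
        rw [map_sub, map_one, map_pow]
      rw [h3] at h1
      linarith
    have hb' : B w v = 0 := by rw [hB.symm, hb]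
    refine ⟨swap B v w, ?_, ?_⟩
    · intro x
      rw [swap_apply]
      simp only [map_sub, map_smul, LinearMap.sub_apply, LinearMap.smul_apply, smul_eq_mul, hw,
          hv, hb, hb', hB.symm v x, hB.symm w x]
      ring
    · rw [swap_apply]
      simp only [map_sub, hb', hw, zero_sub, neg_smul, one_smul]
      abel

theorem polar (hB : IsLattice K L B) {M : Type} [AddCommGroup M] [Module (𝓞 K) M]
    {BM : LinearMap.BilinForm (𝓞 K) M} (hM : ∀ x y, BM x y = BM y x) (σ : M →ₗ[𝓞 K] L)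
    (hσ : ∀ x, B (σ x) (σ x) = BM x x) (x y : M) : B (σ x) (σ y) = BM x y := by
  have h := hσ (x + y)
  simp only [map_add, LinearMap.add_apply, hσ x, hσ y, hB.symm (σ y) (σ x), hM y x] at h
  have h2 : (2 : 𝓞 K) * B (σ x) (σ y) = 2 * BM x y := by linear_combination h
  exact mul_left_cancel₀ two_ne_zero h2

/-- splitting off a unit vector -/
noncomputable def split (v : L) (hv : B v v = 1) :
    L ≃ₗ[𝓞 K] 𝓞 K × perp K B v where
  toFun x := (B v x, ⟨x - B v x • v, by simp [perp, hv]⟩)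
  map_add' x y := by
    ext1
    · simp
    · apply Subtype.ext; simp [add_smul]; abel
  map_smul' a x := by
    ext1
    · simp
    · apply Subtype.ext; simp [smul_sub, smul_smul]
  invFun p := p.1 • v + p.2.1
  left_inv x := by simp
  right_inv p := by
    have hp : B v p.2.1 = 0 := p.2.2
    ext1
    · simp [hv, hp]
    · apply Subtype.ext; simp [hv, hp]

theorem perp_lattice (hB : IsLattice K L B) (v : L) (hv : B v v = 1) :
    IsLattice K (perp K B v) (res K B (perp K B v)) := by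
  have := hB.fin
  refine ⟨?_, ?_, ?_⟩
  · have hs : Function.Surjective
        ((LinearMap.snd (𝓞 K) (𝓞 K) (perp K B v)).comp (split v hv).toLinearMap) := by
      intro y
      refine ⟨(split v hv).symm (0, y), ?_⟩
      simp
    exact Module.Finite.of_surjective _ hs
  · intro x y; exact hB.symm x.1 y.1
  · intro x hx φ
    exact hB.pos x.1 (fun h => hx (Subtype.ext h)) φ

theorem rk_perp (hB : IsLattice K L B) (v : L) (hv : B v v = 1) :
    rk K L = rk K (perp K B v) + 1 := by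
  have := (perp_lattice hB v hv).fin
  rw [rk_congr K (split v hv), rk_prod]

theorem perp_universal [IsTotallyReal K] (hB : IsLattice K L B) (n : ℕ)
    (hU : Universal K (n + 1) B) (v : L) (hv : B v v = 1) :
    Universal K n (res K B (perp K B v)) := by
  intro M _ _ BM hM hn
  have := hM.fin
  obtain ⟨τ, hτ⟩ := hU (𝓞 K × M) (add1 K BM) (add1_lattice K BM hM) (by rw [rk_prod, hn])
  have hp := polar hB (add1_lattice K BM hM).symm τ hτ
  have hw : B (τ (1, 0)) (τ (1, 0)) = 1 := by rw [hp, add1_apply]; simp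
  obtain ⟨g, hg, hgv⟩ := exists_isometry hB v (τ (1, 0)) hv hw
  have hgp := polar hB hB.symm g hg
  have hmem : ∀ x : M, g (τ (0, x)) ∈ perp K B v := by
    intro x
    change B v (g (τ (0, x))) = 0
    rw [← hgv, hgp, hp, add1_apply]; simp
  refine ⟨LinearMap.codRestrict (perp K B v) ((g.comp τ).comp (LinearMap.inr (𝓞 K) (𝓞 K) M))
    (fun x => hmem x), ?_⟩
  intro x
  change B (g (τ (0, x))) (g (τ (0, x))) = BM x x
  rw [hg, hτ, add1_apply]; simp

end lat

/-- the dot product on `(𝓞 K)^n` -/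
noncomputable def dot (n : ℕ) : LinearMap.BilinForm (𝓞 K) (Fin n → 𝓞 K) :=
  LinearMap.mk₂ (𝓞 K) (fun x y => ∑ i, x i * y i)
    (by intro a b c; simp [add_mul, Finset.sum_add_distrib])
    (by intro a b c; simp [Finset.mul_sum, mul_assoc])
    (by intro a b c; simp [mul_add, Finset.sum_add_distrib])
    (by intro a b c; simp only [Pi.smul_apply, smul_eq_mul, Finset.mul_sum]
        exact Finset.sum_congr rfl (fun i _ => by ring))

theorem dot_lattice (n : ℕ) : IsLattice K (Fin n → 𝓞 K) (dot K n) := by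
  refine ⟨inferInstance, ?_, ?_⟩
  · intro x y; simp [dot, mul_comm]
  · intro x hx φ
    have h1 : φ ((dot K n x x : 𝓞 K) : K) = ∑ i, φ (x i : K) ^ 2 := by
      simp only [dot, LinearMap.mk₂_apply]
      push_cast
      rw [map_sum]
      exact Finset.sum_congr rfl (fun i _ => by rw [map_mul]; ring)
    rw [h1]
    obtain ⟨i, hi⟩ := Function.ne_iff.mp hx
    have h2 : (x i : K) ≠ 0 := by
      intro h; apply hi; exact_mod_cast h
    have h3 : φ (x i : K) ≠ 0 := by rwa [Ne, map_eq_zero]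
    exact Finset.sum_pos' (fun i _ => sq_nonneg _) ⟨i, Finset.mem_univ i, by positivity⟩

theorem rk_dot (n : ℕ) : rk K (Fin n → 𝓞 K) = n := by
  unfold rk
  rw [Module.finrank_baseChange]; simp

theorem exists_unit {L : Type} [AddCommGroup L] [Module (𝓞 K) L]
    {B : LinearMap.BilinForm (𝓞 K) L} (n : ℕ)
    (hU : Universal K (n + 1) B) : ∃ v, B v v = 1 := by
  obtain ⟨τ, hτ⟩ := hU (𝓞 K × (Fin n → 𝓞 K)) (add1 K (dot K n))
    (add1_lattice K _ (dot_lattice K n)) (by rw [rk_prod, rk_dot])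
  exact ⟨τ (1, 0), by rw [hτ, add1_apply]; simp⟩

theorem U_succ [IsTotallyReal K] (n : ℕ) : U K n + 1 ≤ U K (n + 1) := by
  apply le_sInf
  rintro r ⟨L, _, _, B, hB, hU, rfl⟩
  obtain ⟨v, hv⟩ := exists_unit K n hU
  have h1 : U K n ≤ (rk K (perp K B v) : ℕ∞) :=
    sInf_le ⟨perp K B v, inferInstance, inferInstance, res K B (perp K B v),
      perp_lattice hB v hv, perp_universal hB n hU v hv, rfl⟩
  rw [rk_perp hB v hv]
  push_cast
  exact add_le_add_left h1 1


/-- Two lattices are isometric. -/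
def Isometric {L M : Type} [AddCommGroup L] [Module (𝓞 K) L] [AddCommGroup M]
    [Module (𝓞 K) M] (BL : LinearMap.BilinForm (𝓞 K) L)
    (BM : LinearMap.BilinForm (𝓞 K) M) : Prop :=
  ∃ e : M ≃ₗ[𝓞 K] L, ∀ x, BL (e x) (e x) = BM x x

/-- Unimodular: every linear form `L → 𝓞 K` is `x ↦ B a x` for some `a ∈ L`. -/
def Unimodular {L : Type} [AddCommGroup L] [Module (𝓞 K) L]
    (B : LinearMap.BilinForm (𝓞 K) L) : Prop :=
  ∀ f : L →ₗ[𝓞 K] 𝓞 K, ∃ a, ∀ x, B a x = f x

/-- Indecomposable: not zero, and not the orthogonal sum of two nonzero sublattices. -/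
def Indec {L : Type} [AddCommGroup L] [Module (𝓞 K) L]
    (B : LinearMap.BilinForm (𝓞 K) L) : Prop :=
  Nontrivial L ∧ ∀ P Q : Submodule (𝓞 K) L, (∀ x ∈ P, ∀ y ∈ Q, B x y = 0) → P ⊔ Q = ⊤ →
    P = ⊥ ∨ Q = ⊥

/-- A positive definite `𝓞 K`-lattice as one object. -/
structure Lat where
  L : Type
  [grp : AddCommGroup L]
  [mod : Module (𝓞 K) L]
  B : LinearMap.BilinForm (𝓞 K) L
  isLat : IsLattice K L B

attribute [instance] Lat.grp Lat.mod

section decomposition
variable {K} {L : Type} [AddCommGroup L] [Module (𝓞 K) L] {B : LinearMap.BilinForm (𝓞 K) L}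

def Irr (B : LinearMap.BilinForm (𝓞 K) L) (v : L) : Prop :=
  v ≠ 0 ∧ ∀ x y, v = x + y → B x y = 0 → x = 0 ∨ y = 0

def orth (B : LinearMap.BilinForm (𝓞 K) L) (P : Submodule (𝓞 K) L) : Submodule (𝓞 K) L where
  carrier := {z | ∀ q ∈ P, B z q = 0}
  add_mem' := by intro a b ha hb q hq; simp [ha q hq, hb q hq]
  zero_mem' := by intro q _; simp
  smul_mem' := by intro c a ha q hq; simp [ha q hq]

theorem mem_orth {P : Submodule (𝓞 K) L} {z : L} : z ∈ orth B P ↔ ∀ q ∈ P, B z q = 0 := Iff.rfl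

def IsSplit (B : LinearMap.BilinForm (𝓞 K) L) (P : Submodule (𝓞 K) L) : Prop :=
  ∀ z, ∃ p ∈ P, z - p ∈ orth B P

noncomputable def mu (B : LinearMap.BilinForm (𝓞 K) L) (v : L) : ℕ :=
  Int.natAbs (Algebra.norm ℤ (B v v))

theorem norm_lt [IsTotallyReal K] (a b : 𝓞 K) (ha : ∀ φ : K →+* ℝ, 0 < φ (a : K))
    (hb : ∀ φ : K →+* ℝ, 0 < φ (b : K)) :
    Int.natAbs (Algebra.norm ℤ a) < Int.natAbs (Algebra.norm ℤ (a + b)) := by
  have key : ∀ c : 𝓞 K, ((Int.natAbs (Algebra.norm ℤ c) : ℕ) : ℝ)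
      = ∏ w : InfinitePlace K, w (c : K) ^ w.mult := by
    intro c
    rw [InfinitePlace.prod_eq_abs_norm, ← Algebra.coe_norm_int]
    push_cast
    rw [Nat.cast_natAbs]; push_cast; rfl
  have hw : ∀ c : 𝓞 K, (∀ φ : K →+* ℝ, 0 < φ (c : K)) → ∀ w : InfinitePlace K,
      w (c : K) = InfinitePlace.embedding_of_isReal (IsTotallyReal.isReal w) (c : K) := by
    intro c hc w
    have h2 := InfinitePlace.norm_embedding_of_isReal (IsTotallyReal.isReal w) (c : K)
    rw [← h2, Real.norm_eq_abs, abs_of_pos (hc _)]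
  have hab : ∀ φ : K →+* ℝ, 0 < φ ((a + b : 𝓞 K) : K) := by
    intro φ
    push_cast
    rw [map_add]
    exact add_pos (ha φ) (hb φ)
  have : ((Int.natAbs (Algebra.norm ℤ a) : ℕ) : ℝ)
      < ((Int.natAbs (Algebra.norm ℤ (a + b)) : ℕ) : ℝ) := by
    rw [key, key]
    apply Finset.prod_lt_prod_of_nonempty
    · intro w _
      rw [hw a ha w]
      exact pow_pos (ha _) _
    · intro w _
      apply pow_lt_pow_left₀
      · rw [hw a ha w, hw (a + b) hab w]
        push_cast
        rw [map_add]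
        linarith [hb (InfinitePlace.embedding_of_isReal (IsTotallyReal.isReal w))]
      · rw [hw a ha w]; exact (ha _).le
      · exact InfinitePlace.mult_ne_zero
    · exact Finset.univ_nonempty
  exact_mod_cast this

theorem span_irr [IsTotallyReal K] (hB : IsLattice K L B) (v : L) :
    v ∈ Submodule.span (𝓞 K) {v | Irr B v} := by
  induction hn : mu B v using Nat.strong_induction_on generalizing v with
  | _ n ih =>
    by_cases hv : v = 0
    · rw [hv]; exact Submodule.zero_mem _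
    by_cases hI : Irr B v
    · exact Submodule.subset_span hI
    · have : ∃ x y, v = x + y ∧ B x y = 0 ∧ x ≠ 0 ∧ y ≠ 0 := by
        by_contra hcon
        apply hI
        refine ⟨hv, ?_⟩
        intro x y h1 h2
        by_contra h3
        rw [not_or] at h3
        exact hcon ⟨x, y, h1, h2, h3.1, h3.2⟩
      obtain ⟨x, y, h1, h2, hx, hy⟩ := this
      have h3 : B v v = B x x + B y y := by
        rw [h1]; simp [h2, hB.symm y x]
      have hxlt : mu B x < n := by
        rw [← hn]; unfold mu; rw [h3]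
        exact norm_lt _ _ (hB.pos x hx) (hB.pos y hy)
      have hylt : mu B y < n := by
        rw [← hn]; unfold mu; rw [h3, add_comm]
        exact norm_lt _ _ (hB.pos y hy) (hB.pos x hx)
      rw [h1]
      exact Submodule.add_mem _ (ih _ hxlt x rfl) (ih _ hylt y rfl)

theorem self_zero [IsTotallyReal K] (hB : IsLattice K L B) (v : L) (h : B v v = 0) : v = 0 := by
  by_contra hv
  obtain ⟨w⟩ : Nonempty (InfinitePlace K) := inferInstance
  have h1 := hB.pos v hv (InfinitePlace.embedding_of_isReal (IsTotallyReal.isReal w))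
  rw [h] at h1
  simp at h1

theorem irr_mem {P : Submodule (𝓞 K) L} (hB : IsLattice K L B) (hP : IsSplit B P) {v : L}
    (hv : Irr B v) : v ∈ P ∨ v ∈ orth B P := by
  obtain ⟨p, hp, ho⟩ := hP v
  have h1 : B p (v - p) = 0 := by rw [hB.symm]; exact ho p hp
  rcases hv.2 p (v - p) (by abel) h1 with h | h
  · right; rw [h, sub_zero] at ho; exact ho
  · left; rw [sub_eq_zero.mp h]; exact hp

def IndecSub (B : LinearMap.BilinForm (𝓞 K) L) (P : Submodule (𝓞 K) L) : Prop :=
  ∀ P1 P2 : Submodule (𝓞 K) L, P1 ≤ P → P2 ≤ P → (∀ x ∈ P1, ∀ y ∈ P2, B x y = 0) →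
    P ≤ P1 ⊔ P2 → P1 = ⊥ ∨ P2 = ⊥

theorem dichotomy [IsTotallyReal K] (hB : IsLattice K L B) {P G : Submodule (𝓞 K) L}
    (hP : IsSplit B P) (hG : IsSplit B G) (hI : IndecSub B P) : P ≤ G ∨ P ≤ orth B G := by
  have hle : P ≤ (P ⊓ G) ⊔ (P ⊓ orth B G) := by
    intro x hx
    have hT : (⊤ : Submodule (𝓞 K) L) ≤ ((P ⊓ G) ⊔ (P ⊓ orth B G)) ⊔ orth B P := by
      intro z _
      have hz := span_irr hB z
      refine Submodule.span_le.mpr ?_ hz
      intro v hv
      rcases irr_mem hB hP hv with h1 | h1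
      · rcases irr_mem hB hG hv with h2 | h2
        · exact Submodule.mem_sup_left (Submodule.mem_sup_left ⟨h1, h2⟩)
        · exact Submodule.mem_sup_left (Submodule.mem_sup_right ⟨h1, h2⟩)
      · exact Submodule.mem_sup_right h1
    obtain ⟨a, ha, c, hc, hac⟩ := Submodule.mem_sup.mp (hT (Submodule.mem_top (x := x)))
    have haP : a ∈ P := by
      have : (P ⊓ G) ⊔ (P ⊓ orth B G) ≤ P := sup_le inf_le_left inf_le_left
      exact this ha
    have hcP : c ∈ P := by
      have : c = x - a := by rw [← hac]; abel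
      rw [this]; exact Submodule.sub_mem _ hx haP
    have hc0 : c = 0 := self_zero hB c (hc c hcP)
    rw [← hac, hc0, add_zero]; exact ha
  rcases hI (P ⊓ G) (P ⊓ orth B G) inf_le_left inf_le_left
    (by intro x hx y hy; rw [hB.symm]; exact hy.2 x hx.2) hle with h | h
  · right; rw [h, bot_sup_eq] at hle; exact hle.trans inf_le_right
  · left; rw [h, sup_bot_eq] at hle; exact hle.trans inf_le_right

variable {M : Type} [AddCommGroup M] [Module (𝓞 K) M] {BM : LinearMap.BilinForm (𝓞 K) M}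

theorem rep_inj [IsTotallyReal K] (hM : IsLattice K M BM) (τ : M →ₗ[𝓞 K] L)
    (hτ : ∀ x, B (τ x) (τ x) = BM x x) : Function.Injective τ := by
  rw [← LinearMap.ker_eq_bot, LinearMap.ker_eq_bot']
  intro x hx
  apply self_zero hM
  rw [← hτ, hx]; simp

theorem range_split (hB : IsLattice K L B) (hM : IsLattice K M BM) (τ : M →ₗ[𝓞 K] L)
    (hτ : ∀ x, B (τ x) (τ x) = BM x x) (hU : Unimodular K BM) :
    IsSplit B (LinearMap.range τ) := by
  intro z
  obtain ⟨a, ha⟩ := hU ((B z).comp τ)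
  refine ⟨τ a, ⟨a, rfl⟩, ?_⟩
  rintro q ⟨x, rfl⟩
  have h1 := ha x
  rw [LinearMap.comp_apply] at h1
  rw [map_sub, LinearMap.sub_apply, polar hB hM.symm τ hτ, ← h1, sub_self]

theorem range_indec [IsTotallyReal K] (hB : IsLattice K L B) (hM : IsLattice K M BM)
    (τ : M →ₗ[𝓞 K] L) (hτ : ∀ x, B (τ x) (τ x) = BM x x) (hI : Indec K BM) :
    IndecSub B (LinearMap.range τ) := by
  intro P1 P2 h1 h2 ho hle
  have hinj := rep_inj hM τ hτ
  have hsup : P1.comap τ ⊔ P2.comap τ = ⊤ := by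
    rw [eq_top_iff]
    intro x _
    obtain ⟨a, ha, b, hb, hab⟩ := Submodule.mem_sup.mp (hle ⟨x, rfl⟩)
    obtain ⟨a', rfl⟩ := h1 ha
    obtain ⟨b', rfl⟩ := h2 hb
    have : a' + b' = x := hinj (by rw [map_add, hab])
    rw [← this]
    exact Submodule.add_mem_sup ha hb
  have key : ∀ P : Submodule (𝓞 K) L, P ≤ LinearMap.range τ → P.comap τ = ⊥ → P = ⊥ := by
    intro P hP h
    rw [eq_bot_iff]
    intro y hy
    obtain ⟨x, rfl⟩ := hP hy
    have : x ∈ P.comap τ := hy
    rw [h, Submodule.mem_bot] at this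
    rw [this, map_zero]; exact Submodule.zero_mem _
  rcases hI.2 (P1.comap τ) (P2.comap τ)
    (by intro x hx y hy; rw [← polar hB hM.symm τ hτ]; exact ho _ hx _ hy) hsup with h | h
  · left; exact key P1 h1 h
  · right; exact key P2 h2 h

theorem range_ne_bot [IsTotallyReal K] (hM : IsLattice K M BM) (τ : M →ₗ[𝓞 K] L)
    (hτ : ∀ x, B (τ x) (τ x) = BM x x) (hI : Indec K BM) : LinearMap.range τ ≠ ⊥ := by
  intro h
  have := hI.1
  obtain ⟨x, hx⟩ := exists_ne (0 : M)
  apply hx
  apply rep_inj hM τ hτ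
  rw [map_zero]
  have : τ x ∈ LinearMap.range τ := ⟨x, rfl⟩
  rwa [h, Submodule.mem_bot] at this

end decomposition

section family
variable {K} {L : Type} [AddCommGroup L] [Module (𝓞 K) L] {B : LinearMap.BilinForm (𝓞 K) L}

theorem represents_of_le [IsTotallyReal K] {M N : Type} [AddCommGroup M]
    [Module (𝓞 K) M] {BM : LinearMap.BilinForm (𝓞 K) M} [AddCommGroup N] [Module (𝓞 K) N]
    {BN : LinearMap.BilinForm (𝓞 K) N} (hN : IsLattice K N BN)
    (σ : M →ₗ[𝓞 K] L) (hσ : ∀ x, B (σ x) (σ x) = BM x x)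
    (τ : N →ₗ[𝓞 K] L) (hτ : ∀ x, B (τ x) (τ x) = BN x x)
    (hle : LinearMap.range σ ≤ LinearMap.range τ) : Represents K BN BM := by
  have hinj := rep_inj hN τ hτ
  let e := LinearEquiv.ofInjective τ hinj
  refine ⟨(e.symm : LinearMap.range τ →ₗ[𝓞 K] N).comp
    (LinearMap.codRestrict (LinearMap.range τ) σ (fun x => hle ⟨x, rfl⟩)), ?_⟩
  intro x
  set y := e.symm (LinearMap.codRestrict (LinearMap.range τ) σ (fun x => hle ⟨x, rfl⟩) x) with hy
  change BN y y = BM x x
  have h1 : τ y = σ x := by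
    have : e y = (LinearMap.codRestrict (LinearMap.range τ) σ (fun x => hle ⟨x, rfl⟩) x) := by
      rw [hy]; simp
    have h2 := congrArg Subtype.val this
    exact h2
  rw [← hτ, h1, hσ]

theorem isometric_of_eq [IsTotallyReal K] {M N : Type} [AddCommGroup M]
    [Module (𝓞 K) M] {BM : LinearMap.BilinForm (𝓞 K) M} [AddCommGroup N] [Module (𝓞 K) N]
    {BN : LinearMap.BilinForm (𝓞 K) N} (hM : IsLattice K M BM) (hN : IsLattice K N BN)
    (σ : M →ₗ[𝓞 K] L) (hσ : ∀ x, B (σ x) (σ x) = BM x x)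
    (τ : N →ₗ[𝓞 K] L) (hτ : ∀ x, B (τ x) (τ x) = BN x x)
    (heq : LinearMap.range σ = LinearMap.range τ) : Isometric K BN BM := by
  have hinj := rep_inj hN τ hτ
  have hinj' := rep_inj hM σ hσ
  let e := LinearEquiv.ofInjective τ hinj
  let f := LinearEquiv.ofInjective σ hinj'
  refine ⟨(f.trans (LinearEquiv.ofEq _ _ heq)).trans e.symm, ?_⟩
  intro x
  set y := ((f.trans (LinearEquiv.ofEq _ _ heq)).trans e.symm) x with hy
  have h1 : τ y = σ x := by
    have : e y = (f.trans (LinearEquiv.ofEq _ _ heq)) x := by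
      rw [hy]; simp
    exact congrArg Subtype.val this
  rw [← hτ, h1, hσ]

theorem rk_le [IsTotallyReal K] (hB : IsLattice K L B) {ι : Type} [Fintype ι] [DecidableEq ι]
    (F : ι → Lat K) (τ : ∀ i, (F i).L →ₗ[𝓞 K] L) (hτ : ∀ i x, B (τ i x) (τ i x) = (F i).B x x)
    (hort : ∀ i j, i ≠ j → ∀ x y, B (τ i x) (τ j y) = 0)
    (L1 : Submodule (𝓞 K) L) (hL1 : ∀ y ∈ L1, ∀ i x, B y (τ i x) = 0) :
    ∑ i, rk K (F i).L + rk K L1 ≤ rk K L := by
  have hfin := hB.fin
  have hF : ∀ i, Module.Finite (𝓞 K) (F i).L := fun i => (F i).isLat.fin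
  let Φ : ((i : ι) → (F i).L) × L1 →ₗ[𝓞 K] L :=
    (LinearMap.lsum (𝓞 K) (fun i => (F i).L) (𝓞 K) τ).coprod L1.subtype
  have hΦ : ∀ x y, Φ (x, y) = ∑ i, τ i (x i) + y := by
    intro x y
    simp [Φ, LinearMap.lsum_apply]
  have hinj : Function.Injective Φ := by
    rw [← LinearMap.ker_eq_bot, LinearMap.ker_eq_bot']
    rintro ⟨x, y⟩ h
    rw [hΦ] at h
    have hx : ∀ j, x j = 0 := by
      intro j
      apply self_zero (F j).isLat
      rw [← hτ]
      have h1 : B (∑ i, τ i (x i) + y) (τ j (x j)) = 0 := by rw [h]; simp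
      rw [map_add, LinearMap.add_apply, hL1 y y.2, add_zero, map_sum, LinearMap.sum_apply,
        Finset.sum_eq_single j] at h1
      · exact h1
      · intro i _ hij; exact hort i j hij _ _
      · intro h; exact absurd (Finset.mem_univ j) h
    have hx' : x = 0 := funext hx
    rw [hx'] at h
    have hy : (y : L) = 0 := by simpa using h
    rw [hx']
    ext1
    · rfl
    · exact Subtype.ext hy
  have hflat : Module.Flat (𝓞 K) K := IsLocalization.flat K (nonZeroDivisors (𝓞 K))
  have hinj2 : Function.Injective (Φ.baseChange K) := by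
    have := Module.Flat.lTensor_preserves_injective_linearMap (M := K) Φ hinj
    exact this
  have h2 := LinearMap.finrank_le_finrank_of_injective hinj2
  have h3 : Module.finrank K (K ⊗[𝓞 K] (((i : ι) → (F i).L) × L1))
      = ∑ i, rk K (F i).L + rk K L1 := by
    rw [(TensorProduct.prodRight (𝓞 K) K K _ _).finrank_eq, Module.finrank_prod,
      (TensorProduct.piRight (𝓞 K) K K (fun i => (F i).L)).finrank_eq,
      Module.finrank_pi_fintype]
    rfl
  rw [h3] at h2
  exact h2

end family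

theorem univ_pred [IsTotallyReal K] {L : Type} [AddCommGroup L] [Module (𝓞 K) L]
    {B : LinearMap.BilinForm (𝓞 K) L} (n : ℕ) (hU : Universal K (n + 1) B) :
    Universal K n B := by
  intro M _ _ BM hM hn
  have := hM.fin
  obtain ⟨τ, hτ⟩ := hU (𝓞 K × M) (add1 K BM) (add1_lattice K BM hM) (by rw [rk_prod, hn])
  refine ⟨τ.comp (LinearMap.inr (𝓞 K) (𝓞 K) M), ?_⟩
  intro x
  rw [LinearMap.comp_apply, hτ, add1_apply]; simp

theorem univ_le [IsTotallyReal K] {L : Type} [AddCommGroup L] [Module (𝓞 K) L]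
    {B : LinearMap.BilinForm (𝓞 K) L} {n N : ℕ} (h : n ≤ N) (hU : Universal K N B) :
    Universal K n B := by
  induction N, h using Nat.le_induction with
  | base => exact hU
  | succ m _ ih => exact ih (univ_pred K m hU)


/-- The orthogonal sum of `k` copies of a lattice. -/
noncomputable def powForm {M : Type} [AddCommGroup M] [Module (𝓞 K) M]
    (BM : LinearMap.BilinForm (𝓞 K) M) (k : ℕ) : LinearMap.BilinForm (𝓞 K) (Fin k → M) :=
  LinearMap.mk₂ (𝓞 K) (fun x y => ∑ i, BM (x i) (y i))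
    (by intro a b c; simp [Finset.sum_add_distrib])
    (by intro a b c; simp [Finset.mul_sum])
    (by intro a b c; simp [Finset.sum_add_distrib])
    (by intro a b c; simp [Finset.mul_sum])

theorem powForm_apply {M : Type} [AddCommGroup M] [Module (𝓞 K) M]
    (BM : LinearMap.BilinForm (𝓞 K) M) (k : ℕ) (x y : Fin k → M) :
    powForm K BM k x y = ∑ i, BM (x i) (y i) := rfl

theorem pow_lattice {M : Type} [AddCommGroup M] [Module (𝓞 K) M]
    (BM : LinearMap.BilinForm (𝓞 K) M) (h : IsLattice K M BM) (k : ℕ) :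
    IsLattice K (Fin k → M) (powForm K BM k) := by
  have := h.fin
  refine ⟨inferInstance, ?_, ?_⟩
  · intro x y
    rw [powForm_apply, powForm_apply]
    exact Finset.sum_congr rfl (fun i _ => h.symm _ _)
  · intro x hx φ
    rw [powForm_apply]
    push_cast
    rw [map_sum]
    obtain ⟨i, hi⟩ := Function.ne_iff.mp hx
    refine Finset.sum_pos' (fun j _ => ?_) ⟨i, Finset.mem_univ i, h.pos _ hi φ⟩
    by_cases hj : x j = 0
    · rw [hj]; simp
    · exact (h.pos _ hj φ).le

theorem rk_pow {M : Type} [AddCommGroup M] [Module (𝓞 K) M] [Module.Finite (𝓞 K) M] (k : ℕ) :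
    rk K (Fin k → M) = k * rk K M := by
  unfold rk
  rw [(TensorProduct.piRight (𝓞 K) K K (fun _ : Fin k => M)).finrank_eq,
      Module.finrank_pi_fintype]
  simp

section move
variable {K} {L : Type} [AddCommGroup L] [Module (𝓞 K) L] {B : LinearMap.BilinForm (𝓞 K) L}

/-- the sum map of a family of sublattices and the rest -/
noncomputable def sumMap {ι : Type} [Fintype ι] [DecidableEq ι] (F : ι → Lat K)
    (τ : ∀ i, (F i).L →ₗ[𝓞 K] L) (L1 : Submodule (𝓞 K) L) :
    ((i : ι) → (F i).L) × L1 →ₗ[𝓞 K] L :=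
  (LinearMap.lsum (𝓞 K) (fun i => (F i).L) (𝓞 K) τ).coprod L1.subtype

theorem sumMap_apply {ι : Type} [Fintype ι] [DecidableEq ι] (F : ι → Lat K)
    (τ : ∀ i, (F i).L →ₗ[𝓞 K] L) (L1 : Submodule (𝓞 K) L) (x : (i : ι) → (F i).L) (y : L1) :
    sumMap F τ L1 (x, y) = ∑ i, τ i (x i) + y := by
  simp [sumMap, LinearMap.lsum_apply]

theorem sumMap_pair (hB : IsLattice K L B) {ι : Type} [Fintype ι] [DecidableEq ι]
    (F : ι → Lat K) (τ : ∀ i, (F i).L →ₗ[𝓞 K] L)
    (hτ : ∀ i x, B (τ i x) (τ i x) = (F i).B x x)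
    (hort : ∀ i j, i ≠ j → ∀ x y, B (τ i x) (τ j y) = 0)
    (L1 : Submodule (𝓞 K) L) (hL1 : ∀ y ∈ L1, ∀ i x, B y (τ i x) = 0)
    (x : (i : ι) → (F i).L) (y : L1) (j : ι) (u : (F j).L) :
    B (sumMap F τ L1 (x, y)) (τ j u) = (F j).B (x j) u := by
  rw [sumMap_apply, map_add, LinearMap.add_apply, hL1 y y.2, add_zero, map_sum,
    LinearMap.sum_apply, Finset.sum_eq_single j]
  · exact polar hB (F j).isLat.symm (τ j) (hτ j) _ _
  · intro i _ hij; exact hort i j hij _ _
  · intro h; exact absurd (Finset.mem_univ j) h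

theorem sumMap_bij [IsTotallyReal K] (hB : IsLattice K L B) {ι : Type} [Fintype ι]
    [DecidableEq ι] (F : ι → Lat K) (τ : ∀ i, (F i).L →ₗ[𝓞 K] L)
    (hτ : ∀ i x, B (τ i x) (τ i x) = (F i).B x x)
    (hort : ∀ i j, i ≠ j → ∀ x y, B (τ i x) (τ j y) = 0)
    (hU : ∀ i, Unimodular K (F i).B)
    (L1 : Submodule (𝓞 K) L) (hL1 : ∀ y, y ∈ L1 ↔ ∀ i x, B y (τ i x) = 0) :
    Function.Bijective (sumMap F τ L1) := by
  constructor
  · rw [← LinearMap.ker_eq_bot, LinearMap.ker_eq_bot']
    rintro ⟨x, y⟩ h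
    have hx : ∀ j, x j = 0 := by
      intro j
      apply self_zero (F j).isLat
      rw [← sumMap_pair hB F τ hτ hort L1 (fun y hy => (hL1 y).mp hy) x y j (x j), h]
      simp
    have hx' : x = 0 := funext hx
    rw [sumMap_apply, hx'] at h
    have hy : (y : L) = 0 := by simpa using h
    rw [hx']
    ext1
    · rfl
    · exact Subtype.ext hy
  · intro z
    choose a ha using fun i => hU i ((B z).comp (τ i))
    have hy : z - ∑ i, τ i (a i) ∈ L1 := by
      rw [hL1]
      intro j u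
      rw [map_sub, LinearMap.sub_apply, map_sum, LinearMap.sum_apply, Finset.sum_eq_single j]
      · rw [polar hB (F j).isLat.symm (τ j) (hτ j), ha j u, LinearMap.comp_apply, sub_self]
      · intro i _ hij; exact hort i j hij _ _
      · intro h; exact absurd (Finset.mem_univ j) h
    refine ⟨(a, ⟨_, hy⟩), ?_⟩
    rw [sumMap_apply]
    simp

theorem sumMap_norm (hB : IsLattice K L B) {ι : Type} [Fintype ι] [DecidableEq ι]
    (F : ι → Lat K) (τ : ∀ i, (F i).L →ₗ[𝓞 K] L)
    (hτ : ∀ i x, B (τ i x) (τ i x) = (F i).B x x)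
    (hort : ∀ i j, i ≠ j → ∀ x y, B (τ i x) (τ j y) = 0)
    (L1 : Submodule (𝓞 K) L) (hL1 : ∀ y ∈ L1, ∀ i x, B y (τ i x) = 0)
    (x : (i : ι) → (F i).L) (y : L1) :
    B (sumMap F τ L1 (x, y)) (sumMap F τ L1 (x, y)) = ∑ i, (F i).B (x i) (x i) + B y y := by
  have h1 : ∀ z, B z (sumMap F τ L1 (x, y)) = ∑ i, B z (τ i (x i)) + B z y := by
    intro z; rw [sumMap_apply, map_add, map_sum]
  rw [h1]
  congr 1
  · exact Finset.sum_congr rfl (fun i _ => sumMap_pair hB F τ hτ hort L1 hL1 x y i (x i))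
  · rw [sumMap_apply, map_add, LinearMap.add_apply, map_sum, LinearMap.sum_apply]
    rw [Finset.sum_eq_zero, zero_add]
    intro i _
    rw [hB.symm]; exact hL1 y y.2 i _

end move

theorem exists_perm {k m : ℕ} (hmk : m ≤ k) (J : Finset (Fin k)) (hJ : J.card ≤ m) :
    ∃ π : Equiv.Perm (Fin k), ∀ j ∈ J, (π j : ℕ) < m := by
  classical
  have hT : (Finset.univ.filter (fun j : Fin k => (j : ℕ) < m)).card = m := by
    have : (Finset.univ.filter (fun j : Fin k => (j : ℕ) < m))
        = Finset.map (Fin.castLEEmb hmk) Finset.univ := by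
      ext j
      simp only [Finset.mem_filter, Finset.mem_univ, true_and, Finset.mem_map]
      constructor
      · intro h; exact ⟨⟨j, h⟩, rfl⟩
      · rintro ⟨a, rfl⟩; exact a.2
    rw [this, Finset.card_map, Finset.card_univ, Fintype.card_fin]
  obtain ⟨T, hT1, hT2⟩ := Finset.exists_subset_card_eq (hJ.trans hT.ge)
  let e : {x // x ∈ J} ≃ {x // x ∈ T} := Finset.equivOfCardEq hT2.symm
  refine ⟨e.extendSubtype, ?_⟩
  intro j hj
  have := e.extendSubtype_mem j hj
  have h2 := hT1 this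
  simpa using h2

theorem removal [IsTotallyReal K] (n N : ℕ) (C : Set (Lat K))
    (hC : ∀ G ∈ C, Unimodular K G.B ∧ rk K G.L ≤ N)
    (hrep : ∀ M : Lat K, rk K M.L = n → ∃ G ∈ C, Represents K G.B M.B)
    (c : ℕ) (F : Fin c → Lat K) (k m : Fin c → ℕ)
    (hF : ∀ i, Unimodular K (F i).B ∧ Indec K (F i).B)
    (hne : ∀ i j, i ≠ j → ¬ Isometric K (F i).B (F j).B)
    (hmk : ∀ i, m i ≤ k i) (hk : ∀ i, k i * rk K (F i).L ≤ N)
    (hno : ∀ i, ∀ G ∈ C, ¬ Represents K G.B (powForm K (F i).B (m i + 1))) :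
    U K n + ((∑ i, (k i - m i) * rk K (F i).L : ℕ) : ℕ∞) ≤ U K N := by
  classical
  apply le_sInf
  rintro r ⟨L, _, _, B, hB, hU, rfl⟩
  have hfin := hB.fin
  have hFfin : ∀ i, Module.Finite (𝓞 K) (F i).L := fun i => (F i).isLat.fin
  have h1 : ∀ i, ∃ σ : (Fin (k i) → (F i).L) →ₗ[𝓞 K] L,
      ∀ x, B (σ x) (σ x) = powForm K (F i).B (k i) x x := fun i =>
    univ_le K (hk i) hU (Fin (k i) → (F i).L) (powForm K (F i).B (k i))
      (pow_lattice K (F i).B (F i).isLat (k i)) (rk_pow K (k i))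
  choose σ hσ using h1
  let I := (i : Fin c) × Fin (k i)
  let F' : I → Lat K := fun p => F p.1
  let τ : ∀ p : I, (F' p).L →ₗ[𝓞 K] L := fun p =>
    (σ p.1).comp (LinearMap.single (𝓞 K) (fun _ : Fin (k p.1) => (F p.1).L) p.2)
  have hτ : ∀ p x, B (τ p x) (τ p x) = (F' p).B x x := by
    intro p x
    change B (σ p.1 (Pi.single p.2 x)) (σ p.1 (Pi.single p.2 x)) = (F p.1).B x x
    rw [hσ, powForm_apply, Finset.sum_eq_single p.2]
    · simp
    · intro j _ hj; simp [Pi.single_eq_of_ne hj]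
    · intro h; exact absurd (Finset.mem_univ _) h
  have hUF : ∀ p, Unimodular K (F' p).B := fun p => (hF p.1).1
  have hsp : ∀ p, IsSplit B (LinearMap.range (τ p)) := fun p =>
    range_split hB (F' p).isLat (τ p) (hτ p) (hF p.1).1
  have hin : ∀ p, IndecSub B (LinearMap.range (τ p)) := fun p =>
    range_indec hB (F' p).isLat (τ p) (hτ p) (hF p.1).2
  have hnb : ∀ p, LinearMap.range (τ p) ≠ ⊥ := fun p =>
    range_ne_bot (F' p).isLat (τ p) (hτ p) (hF p.1).2
  have hort : ∀ p q, p ≠ q → ∀ x y, B (τ p x) (τ q y) = 0 := by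
    rintro ⟨i, a⟩ ⟨j, b⟩ hpq x y
    by_cases hij : i = j
    · subst hij
      have hab : a ≠ b := fun h => hpq (by rw [h])
      change B (σ i (Pi.single a x)) (σ i (Pi.single b y)) = 0
      rw [polar hB (pow_lattice K (F i).B (F i).isLat (k i)).symm (σ i) (hσ i), powForm_apply]
      apply Finset.sum_eq_zero
      intro t _
      by_cases hta : t = a
      · subst hta; rw [Pi.single_eq_of_ne hab]; simp
      · rw [Pi.single_eq_of_ne hta]; simp
    · rcases dichotomy hB (hsp ⟨i, a⟩) (hsp ⟨j, b⟩) (hin ⟨i, a⟩) with h | h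
      · exfalso
        rcases dichotomy hB (hsp ⟨j, b⟩) (hsp ⟨i, a⟩) (hin ⟨j, b⟩) with h' | h'
        · exact hne i j hij (isometric_of_eq (F j).isLat (F i).isLat (τ ⟨j, b⟩) (hτ ⟨j, b⟩)
            (τ ⟨i, a⟩) (hτ ⟨i, a⟩) (le_antisymm h' h))
        · apply hnb ⟨i, a⟩
          rw [eq_bot_iff]
          intro x hx
          rw [Submodule.mem_bot]
          exact self_zero hB x (h' (h hx) x hx)
      · exact h ⟨x, rfl⟩ (τ ⟨j, b⟩ y) ⟨y, rfl⟩
  let L0 : Submodule (𝓞 K) L := ⨅ p : I, orth B (LinearMap.range (τ p))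
  have hL0 : ∀ y, y ∈ L0 ↔ ∀ p x, B y (τ p x) = 0 := by
    intro y
    rw [Submodule.mem_iInf]
    constructor
    · intro h p x; exact h p _ ⟨x, rfl⟩
    · rintro h p _ ⟨x, rfl⟩; exact h p x
  let Φ := LinearEquiv.ofBijective (sumMap F' τ L0) (sumMap_bij hB F' τ hτ hort hUF L0 hL0)
  -- the copies which are removed
  let I1 := (i : Fin c) × Fin (k i - m i)
  let ι1 : I1 → I := fun p => ⟨p.1, ⟨m p.1 + p.2, by have := p.2.2; omega⟩⟩
  have hι1 : Function.Injective ι1 := by
    rintro ⟨i, a⟩ ⟨j, b⟩ h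
    have h1 : i = j := congrArg Sigma.fst h
    subst h1
    have h2 := eq_of_heq (Sigma.mk.inj_iff.mp h).2
    have h3 : m i + (a : ℕ) = m i + b := congrArg Fin.val h2
    have h4 : a = b := Fin.ext (by omega)
    rw [h4]
  let L1 : Submodule (𝓞 K) L := ⨅ p : I1, orth B (LinearMap.range (τ (ι1 p)))
  have hL1 : ∀ y ∈ L1, ∀ p x, B y (τ (ι1 p) x) = 0 := by
    intro y hy p x
    exact (Submodule.mem_iInf _).mp hy p _ ⟨x, rfl⟩
  have hlat : IsLattice K L1 (res K B L1) :=
    ⟨inferInstance, fun x y => hB.symm x.1 y.1,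
      fun x hx φ => hB.pos x.1 (fun h => hx (Subtype.ext h)) φ⟩
  have huni : Universal K n (res K B L1) := by
    intro M _ _ BM hM hn
    obtain ⟨G, hG, ρ, hρ⟩ := hrep ⟨M, BM, hM⟩ hn
    obtain ⟨θ, hθ⟩ := univ_le K (hC G hG).2 hU G.L G.B G.isLat rfl
    have hspG := range_split hB G.isLat θ hθ (hC G hG).1
    let J : ∀ i, Finset (Fin (k i)) := fun i =>
      Finset.univ.filter (fun j => LinearMap.range (τ ⟨i, j⟩) ≤ LinearMap.range θ)
    have hJ : ∀ i, (J i).card ≤ m i := by
      intro i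
      by_contra hcon
      rw [not_le] at hcon
      obtain ⟨T, hT1, hT2⟩ := Finset.exists_subset_card_eq (s := J i) (n := m i + 1) hcon
      let e : Fin (m i + 1) ≃ {x // x ∈ T} := (T.equivFinOfCardEq hT2).symm
      let ψ : (Fin (m i + 1) → (F i).L) →ₗ[𝓞 K] L :=
        LinearMap.lsum (𝓞 K) (fun _ => (F i).L) (𝓞 K) (fun j => τ ⟨i, (e j).1⟩)
      have hψ : ∀ x, ψ x = ∑ j, τ ⟨i, (e j).1⟩ (x j) := by
        intro x; simp [ψ, LinearMap.lsum_apply]
      refine hno i G hG (represents_of_le G.isLat ψ ?_ θ hθ ?_)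
      · intro x
        rw [hψ, powForm_apply, map_sum]
        apply Finset.sum_congr rfl
        intro j _
        rw [map_sum, LinearMap.sum_apply, Finset.sum_eq_single j]
        · exact hτ ⟨i, (e j).1⟩ (x j)
        · intro j' _ hj'
          apply hort
          intro h
          have h' := eq_of_heq (Sigma.mk.inj_iff.mp h).2
          exact hj' (e.injective (Subtype.ext h'))
        · intro h; exact absurd (Finset.mem_univ _) h
      · rintro _ ⟨x, rfl⟩
        rw [hψ]
        refine Submodule.sum_mem _ (fun j _ => ?_)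
        have : (e j).1 ∈ J i := hT1 (e j).2
        exact (Finset.mem_filter.mp this).2 ⟨x j, rfl⟩
    have hperp : ∀ (p : I), p.2 ∉ J p.1 → ∀ u v, B (θ u) (τ p v) = 0 := by
      intro p hp u v
      rcases dichotomy hB (hsp p) hspG (hin p) with h | h
      · have hpJ : p.2 ∈ J p.1 := Finset.mem_filter.mpr ⟨Finset.mem_univ p.2, h⟩
        exact absurd hpJ hp
      · rw [hB.symm]
        exact h ⟨v, rfl⟩ (θ u) ⟨u, rfl⟩
    choose π hπ using fun i => exists_perm (hmk i) (J i) (hJ i)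
    let R : ((p : I) → (F' p).L) →ₗ[𝓞 K] ((p : I) → (F' p).L) :=
      { toFun := fun x p => x ⟨p.1, (π p.1).symm p.2⟩
        map_add' := fun _ _ => rfl
        map_smul' := fun _ _ => rfl }
    let g : L →ₗ[𝓞 K] L :=
      (sumMap F' τ L0).comp ((LinearMap.prodMap R LinearMap.id).comp Φ.symm.toLinearMap)
    have hL0' : ∀ y ∈ L0, ∀ p x, B y (τ p x) = 0 := fun y hy => (hL0 y).mp hy
    have hg : ∀ x y, g (sumMap F' τ L0 (x, y)) = sumMap F' τ L0 (R x, y) := by
      intro x y
      have : Φ.symm (sumMap F' τ L0 (x, y)) = (x, y) := Φ.symm_apply_apply (x, y)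
      change sumMap F' τ L0 ((LinearMap.prodMap R LinearMap.id)
        (Φ.symm (sumMap F' τ L0 (x, y)))) = _
      rw [this]; rfl
    have hsum : ∀ x : (p : I) → (F' p).L,
        ∑ p, (F' p).B (R x p) (R x p) = ∑ p, (F' p).B (x p) (x p) := by
      intro x
      rw [Fintype.sum_sigma, Fintype.sum_sigma]
      apply Finset.sum_congr rfl
      intro i _
      exact Equiv.sum_comp (π i).symm (fun j => (F i).B (x ⟨i, j⟩) (x ⟨i, j⟩))
    have hgn : ∀ z, B (g z) (g z) = B z z := by
      intro z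
      obtain ⟨⟨x, y⟩, rfl⟩ := Φ.surjective z
      change B (g (sumMap F' τ L0 (x, y))) (g (sumMap F' τ L0 (x, y)))
        = B (sumMap F' τ L0 (x, y)) (sumMap F' τ L0 (x, y))
      rw [hg, sumMap_norm hB F' τ hτ hort L0 hL0', sumMap_norm hB F' τ hτ hort L0 hL0', hsum]
    have hmem : ∀ u : G.L, g (θ u) ∈ L1 := by
      intro u
      rw [Submodule.mem_iInf]
      rintro p _ ⟨w, rfl⟩
      obtain ⟨⟨x, y⟩, hxy⟩ := Φ.surjective (θ u)
      have hxy' : sumMap F' τ L0 (x, y) = θ u := hxy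
      rw [← hxy', hg, sumMap_pair hB F' τ hτ hort L0 hL0']
      have hnotin : (π p.1).symm (ι1 p).2 ∉ J p.1 := by
        intro h
        have := hπ p.1 _ h
        rw [Equiv.apply_symm_apply] at this
        simp only [ι1] at this
        omega
      have hx0 : x ⟨p.1, (π p.1).symm (ι1 p).2⟩ = 0 := by
        apply self_zero (F' ⟨p.1, (π p.1).symm (ι1 p).2⟩).isLat
        rw [← sumMap_pair hB F' τ hτ hort L0 hL0' x y, hxy']
        exact hperp ⟨p.1, (π p.1).symm (ι1 p).2⟩ hnotin u _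
      have : R x (ι1 p) = 0 := hx0
      rw [this]; simp
    refine ⟨LinearMap.codRestrict L1 ((g.comp θ).comp ρ) (fun x => hmem (ρ x)), ?_⟩
    intro x
    change B (g (θ (ρ x))) (g (θ (ρ x))) = BM x x
    rw [hgn, hθ, hρ]
  have h2 : U K n ≤ (rk K L1 : ℕ∞) :=
    sInf_le ⟨L1, inferInstance, inferInstance, res K B L1, hlat, huni, rfl⟩
  have h3 := rk_le hB (fun p : I1 => F' (ι1 p)) (fun p => τ (ι1 p)) (fun p => hτ (ι1 p))
    (fun p q hpq x y => hort (ι1 p) (ι1 q) (fun h => hpq (hι1 h)) x y) L1 hL1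
  have h4 : ∑ p : I1, rk K (F' (ι1 p)).L = ∑ i, (k i - m i) * rk K (F i).L := by
    rw [Fintype.sum_sigma]
    apply Finset.sum_congr rfl
    intro i _
    change ∑ _j : Fin (k i - m i), rk K (F i).L = _
    simp
  rw [h4] at h3
  calc U K n + ((∑ i, (k i - m i) * rk K (F i).L : ℕ) : ℕ∞)
      ≤ (rk K L1 : ℕ∞) + ((∑ i, (k i - m i) * rk K (F i).L : ℕ) : ℕ∞) := by gcongr
    _ = ((∑ i, (k i - m i) * rk K (F i).L + rk K L1 : ℕ) : ℕ∞) := by push_cast; rw [add_comm]
    _ ≤ (rk K L : ℕ∞) := by exact_mod_cast h3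

theorem growth [IsTotallyReal K] (n m : ℕ) : U K n + m ≤ U K (n + m) := by
  induction m with
  | zero => simp
  | succ m ih =>
    calc U K n + ((m + 1 : ℕ) : ℕ∞) = (U K n + m) + 1 := by push_cast; rw [add_assoc]
      _ ≤ U K (n + m) + 1 := by gcongr
      _ ≤ U K (n + (m + 1)) := U_succ K (n + m)

end Pool.Agent.Lib_helper76.UL
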